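import Pool.Agent.H908R2.JOmega
import Pool.Agent.H908R2.SoberWF

set_option autoImplicit false

open Set Topology

namespace Pool.Agent.Results.MP_70096d_gt.ProductNotWellFiltered

open Pool.Agent.H908R2.JOmega Pool.Agent.H908R2.JOmega.JP

/-- A dcpo: every (nonempty) directed subset has a supremum. -/
def IsDcpo (P : Type) [PartialOrder P] : Prop :=
  ∀ D : Set P, D.Nonempty → DirectedOn (· ≤ ·) D → ∃ x : P, IsLUB D x

/-- Scott open sets: upper sets which meet every directed set whose supremum they contain. -/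
def IsScottOpen {P : Type} [PartialOrder P] (U : Set P) : Prop :=
  IsUpperSet U ∧ ∀ D : Set P, D.Nonempty → DirectedOn (· ≤ ·) D → ∀ x : P, IsLUB D x → x ∈ U →
    (D ∩ U).Nonempty

/-- The Scott topology of a poset. -/
def scottTopology (P : Type) [PartialOrder P] : TopologicalSpace P where
  IsOpen := IsScottOpen
  isOpen_univ := ⟨isUpperSet_univ, fun D hD _ x _ _ => by rwa [inter_univ]⟩
  isOpen_inter := by
    rintro U V ⟨hU, hU'⟩ ⟨hV, hV'⟩
    refine ⟨hU.inter hV, fun D hD hdir x hx hxUV => ?_⟩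
    obtain ⟨u, huD, huU⟩ := hU' D hD hdir x hx hxUV.1
    obtain ⟨v, hvD, hvV⟩ := hV' D hD hdir x hx hxUV.2
    obtain ⟨w, hwD, huw, hvw⟩ := hdir u huD v hvD
    exact ⟨w, hwD, hU huw huU, hV hvw hvV⟩
  isOpen_sUnion := by
    intro S hS
    refine ⟨isUpperSet_sUnion fun U hU => (hS U hU).1, fun D hD hdir x hx hxS => ?_⟩
    obtain ⟨U, hU, hxU⟩ := hxS
    obtain ⟨u, huD, huU⟩ := (hS U hU).2 D hD hdir x hx hxU
    exact ⟨u, huD, U, hU, huU⟩

/-- A set is saturated for the topology `t` if it is an intersection of `t`-open sets. -/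
def IsSaturated {X : Type} (t : TopologicalSpace X) (K : Set X) : Prop :=
  ∃ 𝒰 : Set (Set X), (∀ U ∈ 𝒰, @IsOpen X t U) ∧ K = ⋂₀ 𝒰

/-- The topology `t` is `T₀` and whenever a filtered (nonempty) family of compact saturated sets
has its intersection inside an open set, some member is inside that open set. -/
def IsWellFiltered {X : Type} (t : TopologicalSpace X) : Prop :=
  @T0Space X t ∧
    ∀ 𝒦 : Set (Set X), 𝒦.Nonempty → DirectedOn (· ⊇ ·) 𝒦 →
      (∀ K ∈ 𝒦, @IsCompact X t K ∧ IsSaturated t K) →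
      ∀ U : Set X, @IsOpen X t U → ⋂₀ 𝒦 ⊆ U → ∃ K ∈ 𝒦, K ⊆ U

/-- The topology `t` is compatible with the order: the closure of a point is its principal
down-set. -/
def IsCompatible {P : Type} [PartialOrder P] (t : TopologicalSpace P) : Prop :=
  ∀ x : P, @closure P t {x} = Set.Iic x

/-- A well-filtered dcpo: a dcpo some compatible topology of which is well-filtered. -/
def IsWellFilteredDcpo (P : Type) [PartialOrder P] : Prop :=
  IsDcpo P ∧ ∃ t : TopologicalSpace P, IsCompatible t ∧ IsWellFiltered t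

/-! ### The dcpo: Johnstone's dcpo with a top element added -/

/-- Johnstone's dcpo with a new top element. -/
abbrev JT : Type := WithTop (JP ℕ)

lemma lub_col (b : ℕ) : IsLUB (range fun x : ℕ => (pt b x : JP ℕ)) (mx b) := by
  constructor
  · rintro _ ⟨x, rfl⟩
    exact Or.inl rfl
  · intro u hu
    cases u with
    | pt c y =>
      have h : (pt b (y + 1) : JP ℕ) ≤ pt c y := hu ⟨y + 1, rfl⟩
      have := h.2
      omega
    | mx c =>
      rcases hu ⟨c + 1, rfl⟩ with h | h
      · exact h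
      · exact absurd h (by omega)

lemma dir_col (b : ℕ) : DirectedOn (· ≤ ·) (range fun x : ℕ => (pt b x : JP ℕ)) := by
  rintro _ ⟨x, rfl⟩ _ ⟨y, rfl⟩
  exact ⟨pt b (max x y), ⟨_, rfl⟩, ⟨rfl, le_max_left _ _⟩, ⟨rfl, le_max_right _ _⟩⟩

/-- A nonempty Scott open set of Johnstone's dcpo contains almost all maximal points. -/
lemma almost_all {U : Set (JP ℕ)} (hU : IsOpen U) (hne : U.Nonempty) :
    ∃ x : ℕ, ∀ c ≥ x, (mx c : JP ℕ) ∈ U := by
  rw [Topology.IsScott.isOpen_iff_isUpperSet_and_dirSupInaccOn (D := univ)] at hU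
  obtain ⟨hup, hd⟩ := hU
  obtain ⟨b, hb⟩ : ∃ b, (mx b : JP ℕ) ∈ U := by
    obtain ⟨z, hz⟩ := hne
    cases z with
    | pt a x => exact ⟨a, hup (show (pt a x : JP ℕ) ≤ mx a from Or.inl rfl) hz⟩
    | mx b => exact ⟨b, hz⟩
  obtain ⟨_, ⟨x, rfl⟩, hx⟩ := hd (mem_univ _) (range_nonempty _) (dir_col b) (lub_col b) hb
  exact ⟨x, fun c hc => hup (show (pt b x : JP ℕ) ≤ mx c from Or.inr hc) hx⟩

/-- A proper irreducible closed set in the Scott topology of Johnstone's dcpo is principal. -/
lemma irr_proper {C : Set (JP ℕ)} (hC : IsClosed C) (hirr : IsIrreducible C) (hne : C ≠ univ) :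
    ∃ m, C = Iic m := by
  have hC' := Topology.IsScott.isClosed_iff_isLowerSet_and_dirSupClosed.1 hC
  obtain ⟨N, hN⟩ : ∃ N : ℕ, ∀ c, (mx c : JP ℕ) ∈ C → c < N := by
    obtain ⟨x, hx⟩ := almost_all hC.isOpen_compl (nonempty_compl.2 hne)
    refine ⟨x, fun c hc => ?_⟩
    by_contra h
    exact hx c (not_lt.1 h) hc
  have key : ∀ m ∈ C, ∀ Z : Set (JP ℕ), IsClosed Z → m ∉ Z → C ⊆ Iic m ∪ Z → ∃ m, C = Iic m := by
    intro m hm Z hZ hmZ hsub
    refine ⟨m, Subset.antisymm ?_ (fun z hz => hC'.1 hz hm)⟩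
    rcases (isPreirreducible_iff_isClosed_union_isClosed.1 hirr.2) (Iic m) Z
      (by rw [← Topology.IsScott.closure_singleton]; exact isClosed_closure) hZ hsub
      with h | h
    · exact h
    · exact (hmZ (h hm)).elim
  by_cases hcase : ∃ b, (mx b : JP ℕ) ∈ C
  · obtain ⟨b, hb⟩ := hcase
    have hbcol : ∀ y, (pt b y : JP ℕ) ∈ C := fun y =>
      hC'.1 (show (pt b y : JP ℕ) ≤ mx b from Or.inl rfl) hb
    refine key (mx b) hb {z | z ∈ C ∧ z ≠ mx b ∧ ∀ y, z = pt b y → y ≤ N} ?_
      (fun h => h.2.1 rfl) ?_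
    · refine isClosed_of_bound ?_ ?_
      · rintro z w hwz ⟨hz, hz1, hz2⟩
        refine ⟨hC'.1 hwz hz, ?_, ?_⟩
        · rintro rfl
          exact hz1 (mx_le_iff.1 hwz)
        · rintro y rfl
          cases z with
          | pt c y' =>
            obtain ⟨rfl, h⟩ := hwz
            exact h.trans (hz2 y' rfl)
          | mx c =>
            rcases hwz with rfl | h
            · exact (hz1 rfl).elim
            · exact h.trans (hN c hz).le
      · intro d hdZ hdne hdd
        by_cases hmx : ∃ c, (mx c : JP ℕ) ∈ d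
        · obtain ⟨c, hc⟩ := hmx
          exact ⟨mx c, hdZ hc, greatest_of_mem_mx hdd hc⟩
        · push Not at hmx
          obtain ⟨a, x, hax⟩ := exists_pt_of_nonempty hdne hmx
          by_cases hab : a = b
          · subst hab
            refine ⟨pt a N, ⟨hbcol N, ?_, ?_⟩, ?_⟩
            · intro h; cases h
            · intro y h; cases h; exact le_rfl
            · intro z hz
              obtain ⟨y, rfl⟩ := column_of_directed hdd hax hmx hz
              exact ⟨rfl, (hdZ hz).2.2 y rfl⟩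
          · obtain ⟨m, hm⟩ := dcpo d hdne hdd
            have hmC : m ∈ C := hC'.2 (fun z hz => (hdZ hz).1) hdne hdd hm
            have ham : (pt a x : JP ℕ) ≤ m := hm.1 hax
            refine ⟨m, ⟨hmC, ?_, ?_⟩, fun z hz => hm.1 hz⟩
            · rintro rfl
              -- then `d` is bounded in column `a`, so its supremum is in column `a`
              have hub : (pt a b : JP ℕ) ∈ upperBounds d := by
                intro z hz
                obtain ⟨y, rfl⟩ := column_of_directed hdd hax hmx hz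
                rcases hm.1 hz with h | h
                · exact (hab h).elim
                · exact ⟨rfl, h⟩
              exact (hm.2 hub).elim
            · rintro y rfl
              exact (hab ham.1).elim
    · intro z hz
      by_cases hz1 : z = mx b
      · exact Or.inl (by rw [hz1]; exact le_refl (mx b : JP ℕ))
      · cases z with
        | pt c y =>
          by_cases hcb : c = b
          · exact Or.inl (show (pt c y : JP ℕ) ≤ mx b from Or.inl hcb)
          · refine Or.inr ⟨hz, hz1, fun y' h => ?_⟩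
            cases h
            exact (hcb rfl).elim
        | mx c => exact Or.inr ⟨hz, hz1, fun y h => by cases h⟩
  · push Not at hcase
    obtain ⟨z, hz⟩ := hirr.1
    cases z with
    | mx b => exact (hcase b hz).elim
    | pt a x =>
      obtain ⟨n, hn⟩ : ∃ n, (pt a n : JP ℕ) ∉ C := by
        by_contra hcon
        push Not at hcon
        refine hcase a (hC'.2 (?_ : range (fun x : ℕ => (pt a x : JP ℕ)) ⊆ C)
          (range_nonempty _) (dir_col a) (lub_col a))
        rintro _ ⟨y, rfl⟩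
        exact hcon y
      let S : Set ℕ := {y | (pt a y : JP ℕ) ∉ C}
      classical
      have hS : ∃ y, (pt a y : JP ℕ) ∉ C := ⟨n, hn⟩
      let h := Nat.find hS
      have hh : (pt a h : JP ℕ) ∉ C := Nat.find_spec hS
      have hlow : ∀ y, (pt a y : JP ℕ) ∈ C ↔ y < h := by
        intro y
        constructor
        · intro hy
          by_contra hle
          exact hh (hC'.1 (show (pt a h : JP ℕ) ≤ pt a y from ⟨rfl, not_lt.1 hle⟩) hy)
        · intro hy
          have := Nat.find_min hS hy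
          exact not_not.1 this
      have hpos : x < h := (hlow x).1 hz
      refine key (pt a (h - 1)) ((hlow _).2 (by omega)) {z | z ∈ C ∧ ∀ y, z ≠ pt a y} ?_
        (fun hc => hc.2 _ rfl) ?_
      · refine isClosed_of_bound ?_ ?_
        · rintro z w hwz ⟨hz', hz1⟩
          refine ⟨hC'.1 hwz hz', ?_⟩
          rintro y rfl
          cases z with
          | pt c y' =>
            obtain ⟨rfl, _⟩ := hwz
            exact hz1 y' rfl
          | mx c => exact hcase c hz'
        · intro d hdZ hdne hdd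
          have hmx : ∀ b, (mx b : JP ℕ) ∉ d := fun b hb => hcase b (hdZ hb).1
          obtain ⟨c, x', hcx⟩ := exists_pt_of_nonempty hdne hmx
          obtain ⟨m, hm⟩ := dcpo d hdne hdd
          have hmC : m ∈ C := hC'.2 (fun z hz => (hdZ hz).1) hdne hdd hm
          refine ⟨m, ⟨hmC, ?_⟩, fun z hz => hm.1 hz⟩
          rintro y rfl
          have hle : (pt c x' : JP ℕ) ≤ pt a y := hm.1 hcx
          obtain ⟨rfl, _⟩ := hle
          exact (hdZ hcx).2 x' rfl
      · intro z hz'
        cases z with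
        | mx c => exact (hcase c hz').elim
        | pt c y =>
          by_cases hca : c = a
          · subst hca
            have := (hlow y).1 hz'
            exact Or.inl (show (pt c y : JP ℕ) ≤ pt c (h - 1) from ⟨rfl, by omega⟩)
          · refine Or.inr ⟨hz', fun y' h' => ?_⟩
            cases h'
            exact hca rfl

/-- The trace of a set on Johnstone's dcpo. -/
def tr (U : Set JT) : Set (JP ℕ) := {z | ((z : JP ℕ) : JT) ∈ U}

/-- A coarse topology on Johnstone's dcpo with a top: the nonempty open sets are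
`{⊤} ∪ U` with `U` a nonempty Scott open set of Johnstone's dcpo. -/
def coarse : TopologicalSpace JT where
  IsOpen U := U = ∅ ∨ (⊤ ∈ U ∧ IsOpen (tr U) ∧ (tr U).Nonempty)
  isOpen_univ := Or.inr ⟨trivial, isOpen_univ, ⟨mx 0, trivial⟩⟩
  isOpen_inter := by
    rintro U V (rfl | ⟨hU1, hU2, hU3⟩) (rfl | ⟨hV1, hV2, hV3⟩)
    · left; simp
    · left; simp
    · left; simp
    · right
      refine ⟨⟨hU1, hV1⟩, hU2.inter hV2, ?_⟩
      obtain ⟨x, hx⟩ := almost_all hU2 hU3
      obtain ⟨y, hy⟩ := almost_all hV2 hV3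
      exact ⟨mx (max x y), hx _ (le_max_left _ _), hy _ (le_max_right _ _)⟩
  isOpen_sUnion := by
    intro S hS
    by_cases hne : ∃ U ∈ S, U ≠ ∅
    · obtain ⟨U, hU, hUne⟩ := hne
      obtain ⟨h1, h2, h3⟩ := (hS U hU).resolve_left hUne
      refine Or.inr ⟨⟨U, hU, h1⟩, ?_, ?_⟩
      · have : tr (⋃₀ S) = ⋃ V ∈ S, tr V := by
          ext z
          simp [tr]
        rw [this]
        refine isOpen_biUnion fun V hV => ?_
        rcases hS V hV with rfl | h
        · exact isOpen_empty
        · exact h.2.1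
      · obtain ⟨z, hz⟩ := h3
        exact ⟨z, U, hU, hz⟩
    · push Not at hne
      left
      rw [sUnion_eq_empty]
      exact hne

lemma coarse_closed {C : Set JT} (hC : @IsClosed JT coarse C) :
    C = univ ∨ (⊤ ∉ C ∧ IsClosed (tr C) ∧ tr C ≠ univ) := by
  have h := (@isOpen_compl_iff JT C coarse).2 hC
  rcases h with h | ⟨h1, h2, h3⟩
  · left
    rwa [compl_empty_iff] at h
  · right
    refine ⟨h1, ?_, ?_⟩
    · rw [← isOpen_compl_iff]
      exact h2
    · obtain ⟨z, hz⟩ := h3
      intro h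
      have : z ∈ tr C := by rw [h]; trivial
      exact hz this

lemma coarse_closed_of {C : Set JT} (h : ⊤ ∉ C ∧ IsClosed (tr C) ∧ tr C ≠ univ) :
    @IsClosed JT coarse C := by
  rw [← @isOpen_compl_iff JT C coarse]
  refine Or.inr ⟨h.1, ?_, ?_⟩
  · have := h.2.1.isOpen_compl
    exact this
  · obtain ⟨z, hz⟩ := nonempty_compl.2 h.2.2
    exact ⟨z, hz⟩

lemma closure_top : @closure JT coarse {⊤} = univ := by
  have hc : @IsClosed JT coarse (@closure JT coarse {⊤}) := @isClosed_closure JT coarse {⊤}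
  rcases coarse_closed hc with h | h
  · exact h
  · exact (h.1 (@subset_closure JT coarse {⊤} ⊤ rfl)).elim

lemma Iic_closed (z : JP ℕ) : IsClosed (Iic z) := by
  rw [← Topology.IsScott.closure_singleton]; exact isClosed_closure

lemma Iic_ne_univ (z : JP ℕ) : Iic z ≠ univ := by
  intro h
  have h0 : (mx 0 : JP ℕ) ∈ Iic z := by rw [h]; trivial
  have h1 : (mx 1 : JP ℕ) ∈ Iic z := by rw [h]; trivial
  rw [mem_Iic, mx_le_iff] at h0 h1
  rw [h0] at h1
  cases h1

lemma tr_Iic (z : JP ℕ) : tr (Iic ((z : JP ℕ) : JT)) = Iic z := by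
  ext w
  simp [tr]

lemma compat : IsCompatible coarse := by
  intro x
  induction x using WithTop.recTopCoe with
  | top => rw [closure_top, Iic_top]
  | coe z =>
    have hcl : @IsClosed JT coarse (Iic ((z : JP ℕ) : JT)) := by
      refine coarse_closed_of ⟨?_, ?_, ?_⟩
      · simp
      · rw [tr_Iic]; exact Iic_closed z
      · rw [tr_Iic]; exact Iic_ne_univ z
    refine Subset.antisymm ?_ ?_
    · refine @closure_minimal JT coarse _ _ ?_ hcl
      rw [singleton_subset_iff]
      exact le_refl ((z : JP ℕ) : JT)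
    · intro w hw
      have hc : @IsClosed JT coarse (@closure JT coarse {((z : JP ℕ) : JT)}) :=
        @isClosed_closure JT coarse _
      have hz : ((z : JP ℕ) : JT) ∈ @closure JT coarse {((z : JP ℕ) : JT)} :=
        @subset_closure JT coarse _ _ rfl
      rcases coarse_closed hc with h | h
      · rw [h]; trivial
      · induction w using WithTop.recTopCoe with
        | top =>
          exact absurd hw (by simp)
        | coe w =>
          have hwz : w ≤ z := by simpa using hw
          have hl := (Topology.IsScott.isClosed_iff_isLowerSet_and_dirSupClosed.1 h.2.1).1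
          exact hl hwz hz

lemma sober : @QuasiSober JT coarse := by
  refine @QuasiSober.mk JT coarse ?_
  intro C hirr hC
  rcases coarse_closed hC with rfl | h
  · exact ⟨⊤, closure_top⟩
  · have hirr' : IsIrreducible (tr C) := by
      constructor
      · obtain ⟨x, hx⟩ := hirr.1
        induction x using WithTop.recTopCoe with
        | top => exact (h.1 hx).elim
        | coe z => exact ⟨z, hx⟩
      · rw [isPreirreducible_iff_isClosed_union_isClosed]
        intro Z₁ Z₂ hZ₁ hZ₂ hsub
        have hcl : ∀ Z : Set (JP ℕ), IsClosed Z →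
            @IsClosed JT coarse {x | ∃ z, z ∈ Z ∧ z ∈ tr C ∧ x = ((z : JP ℕ) : JT)} := by
          intro Z hZ
          have htr : tr {x | ∃ z, z ∈ Z ∧ z ∈ tr C ∧ x = ((z : JP ℕ) : JT)} = Z ∩ tr C := by
            ext w
            constructor
            · rintro ⟨z, h1, h2, h3⟩
              rw [WithTop.coe_inj] at h3
              rw [h3]
              exact ⟨h1, h2⟩
            · rintro ⟨h1, h2⟩
              exact ⟨w, h1, h2, rfl⟩
          refine coarse_closed_of ⟨?_, ?_, ?_⟩
          · rintro ⟨z, _, _, h3⟩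
            exact WithTop.top_ne_coe h3
          · rw [htr]
            exact hZ.inter h.2.1
          · rw [htr]
            intro hu
            exact h.2.2 (univ_subset_iff.1 (hu ▸ inter_subset_right))
        have hsub' : C ⊆ {x | ∃ z, z ∈ Z₁ ∧ z ∈ tr C ∧ x = ((z : JP ℕ) : JT)} ∪
            {x | ∃ z, z ∈ Z₂ ∧ z ∈ tr C ∧ x = ((z : JP ℕ) : JT)} := by
          intro x hx
          induction x using WithTop.recTopCoe with
          | top => exact (h.1 hx).elim
          | coe z =>
            rcases hsub hx with h' | h'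
            · exact Or.inl ⟨z, h', hx, rfl⟩
            · exact Or.inr ⟨z, h', hx, rfl⟩
        rcases (@isPreirreducible_iff_isClosed_union_isClosed JT coarse C).1 hirr.2 _ _
          (hcl Z₁ hZ₁) (hcl Z₂ hZ₂) hsub' with h' | h'
        · left
          intro z hz
          obtain ⟨w, hw, _, hzw⟩ := h' hz
          rw [WithTop.coe_inj] at hzw
          rwa [hzw]
        · right
          intro z hz
          obtain ⟨w, hw, _, hzw⟩ := h' hz
          rw [WithTop.coe_inj] at hzw
          rwa [hzw]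
    obtain ⟨m, hm⟩ := irr_proper h.2.1 hirr' h.2.2
    refine ⟨(m : JT), ?_⟩
    show @closure JT coarse {((m : JP ℕ) : JT)} = C
    rw [compat]
    ext x
    induction x using WithTop.recTopCoe with
    | top => simp [h.1]
    | coe z =>
      have : z ∈ tr C ↔ z ≤ m := by rw [hm]; rfl
      simpa [tr] using this.symm

lemma t0_of_compat {P : Type} [PartialOrder P] (t : TopologicalSpace P) (h : IsCompatible t) :
    @T0Space P t := by
  refine @T0Space.mk P t ?_
  intro x y hxy
  have e : @closure P t {x} = @closure P t {y} :=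
    (@inseparable_iff_closure_eq P t x y).1 hxy
  rw [h, h] at e
  exact Iic_injective e

lemma wf_coarse : IsWellFiltered coarse := by
  refine ⟨t0_of_compat _ compat, ?_⟩
  intro 𝒦 hne hdir h𝒦 U hU hsub
  refine @Pool.Agent.H908R2.wf_of_sober JT coarse sober 𝒦 hne hdir (fun K hK => (h𝒦 K hK).1) ?_
    U hU hsub
  intro K hK x y hyx hy
  obtain ⟨𝒰, h𝒰, rfl⟩ := (h𝒦 K hK).2
  intro V hV
  obtain ⟨z, hz, hzx⟩ := (@mem_closure_iff JT coarse y {x}).1 hyx V (h𝒰 V hV) (hy V hV)
  rw [mem_singleton_iff] at hzx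
  rwa [← hzx]

lemma dcpo_JT : IsDcpo JT := by
  intro D hne hdir
  by_cases htop : (⊤ : JT) ∈ D
  · exact ⟨⊤, fun x _ => le_top, fun u hu => hu htop⟩
  · have hne' : (tr D).Nonempty := by
      obtain ⟨x, hx⟩ := hne
      induction x using WithTop.recTopCoe with
      | top => exact (htop hx).elim
      | coe z => exact ⟨z, hx⟩
    have hdir' : DirectedOn (· ≤ ·) (tr D) := by
      intro x hx y hy
      obtain ⟨w, hw, h1, h2⟩ := hdir _ hx _ hy
      induction w using WithTop.recTopCoe with
      | top => exact (htop hw).elim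
      | coe w => exact ⟨w, hw, WithTop.coe_le_coe.1 h1, WithTop.coe_le_coe.1 h2⟩
    obtain ⟨m, hm⟩ := dcpo (tr D) hne' hdir'
    refine ⟨(m : JT), ?_, ?_⟩
    · intro x hx
      induction x using WithTop.recTopCoe with
      | top => exact (htop hx).elim
      | coe z => exact WithTop.coe_le_coe.2 (hm.1 hx)
    · intro u hu
      induction u using WithTop.recTopCoe with
      | top => exact le_top
      | coe u =>
        refine WithTop.coe_le_coe.2 (hm.2 ?_)
        intro z hz
        exact WithTop.coe_le_coe.1 (hu hz)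

/-- A directed set of `JT × Q` whose supremum has first coordinate `⊤` has an element with first
coordinate `⊤`. -/
lemma top_open (Q : Type) [PartialOrder Q] : IsScottOpen {z : JT × Q | z.1 = ⊤} := by
  constructor
  · intro a b hab ha
    exact top_le_iff.1 (ha ▸ hab.1)
  · intro D hne hdir x hx hxt
    by_contra hcon
    have hno : ∀ z ∈ D, z.1 ≠ ⊤ := by
      intro z hz hzt
      exact hcon ⟨z, hz, hzt⟩
    have h1 : IsLUB (Prod.fst '' D) x.1 := (isLUB_prod.1 hx).1
    have hdir1 : DirectedOn (· ≤ ·) (tr (Prod.fst '' D)) := by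
      rintro a ⟨p, hp, hpa⟩ b ⟨q, hq, hqb⟩
      obtain ⟨w, hw, hpw, hqw⟩ := hdir p hp q hq
      obtain ⟨c, hc⟩ := WithTop.ne_top_iff_exists.1 (hno w hw)
      refine ⟨c, ⟨w, hw, hc.symm⟩, ?_, ?_⟩
      · have := hpw.1
        rw [hpa, ← hc] at this
        exact WithTop.coe_le_coe.1 this
      · have := hqw.1
        rw [hqb, ← hc] at this
        exact WithTop.coe_le_coe.1 this
    have hne1 : (tr (Prod.fst '' D)).Nonempty := by
      obtain ⟨w, hw⟩ := hne
      obtain ⟨c, hc⟩ := WithTop.ne_top_iff_exists.1 (hno w hw)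
      exact ⟨c, w, hw, hc.symm⟩
    obtain ⟨m, hm⟩ := dcpo _ hne1 hdir1
    have hub : ((m : JP ℕ) : JT) ∈ upperBounds (Prod.fst '' D) := by
      rintro _ ⟨w, hw, rfl⟩
      obtain ⟨c, hc⟩ := WithTop.ne_top_iff_exists.1 (hno w hw)
      rw [← hc]
      exact WithTop.coe_le_coe.2 (hm.1 ⟨w, hw, hc.symm⟩)
    have := h1.2 hub
    rw [show x.1 = ⊤ from hxt] at this
    exact absurd (top_le_iff.1 this) WithTop.coe_ne_top

lemma compl_Iic_open {P : Type} [PartialOrder P] (w : P) : IsScottOpen (Iic w)ᶜ := by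
  constructor
  · intro a b hab ha hb
    exact ha (hab.trans hb)
  · intro D _ _ x hx hxw
    by_contra hcon
    refine hxw (hx.2 fun z hz => ?_)
    by_contra hzw
    exact hcon ⟨z, hz, hzw⟩

/-- The compact sets witnessing the failure of well-filteredness. -/
def KK {Q : Type} [PartialOrder Q] (q : Q) (n : ℕ) : Set (JT × Q) :=
  {z | ∃ m ≥ n, (((mx m : JP ℕ) : JT), q) ≤ z}

lemma slice {Q : Type} [PartialOrder Q] (q : Q) {O : Set (JT × Q)} (hO : IsScottOpen O) {b : ℕ}
    (hb : (((mx b : JP ℕ) : JT), q) ∈ O) : ∃ x : ℕ, ∀ m ≥ x, (((mx m : JP ℕ) : JT), q) ∈ O := by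
  have hl : IsLUB (range fun x : ℕ => (((pt b x : JP ℕ) : JT), q)) (((mx b : JP ℕ) : JT), q) := by
    constructor
    · rintro _ ⟨x, rfl⟩
      exact ⟨WithTop.coe_le_coe.2 (Or.inl rfl), le_rfl⟩
    · intro u hu
      refine ⟨?_, (hu ⟨0, rfl⟩).2⟩
      show ((mx b : JP ℕ) : JT) ≤ u.1
      rcases eq_or_ne u.1 ⊤ with h | h
      · rw [h]; exact le_top
      · obtain ⟨c, hc⟩ := WithTop.ne_top_iff_exists.1 h
        rw [← hc]
        refine WithTop.coe_le_coe.2 ((lub_col b).2 ?_)
        rintro _ ⟨x, rfl⟩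
        have := (hu ⟨x, rfl⟩).1
        rw [← hc] at this
        exact WithTop.coe_le_coe.1 this
  have hd : DirectedOn (· ≤ ·) (range fun x : ℕ => (((pt b x : JP ℕ) : JT), q)) := by
    rintro _ ⟨x, rfl⟩ _ ⟨y, rfl⟩
    exact ⟨_, ⟨max x y, rfl⟩, ⟨WithTop.coe_le_coe.2 ⟨rfl, le_max_left _ _⟩, le_rfl⟩,
      ⟨WithTop.coe_le_coe.2 ⟨rfl, le_max_right _ _⟩, le_rfl⟩⟩
  obtain ⟨_, ⟨x, rfl⟩, hx⟩ := hO.2 _ (range_nonempty _) hd _ hl hb
  refine ⟨x, fun m hm => hO.1 ?_ hx⟩
  exact ⟨WithTop.coe_le_coe.2 (Or.inr hm), le_rfl⟩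

lemma compact_KK {Q : Type} [PartialOrder Q] (q : Q) (n : ℕ) :
    @IsCompact (JT × Q) (scottTopology (JT × Q)) (KK q n) := by
  refine @isCompact_of_finite_subcover (JT × Q) (scottTopology (JT × Q)) _ ?_
  intro ι U hU hcov
  have hmem : ∀ m ≥ n, ∃ i, (((mx m : JP ℕ) : JT), q) ∈ U i := by
    intro m hm
    exact mem_iUnion.1 (hcov ⟨m, hm, le_rfl⟩)
  obtain ⟨i₀, hi₀⟩ := hmem n le_rfl
  obtain ⟨x, hx⟩ := slice q (hU i₀) hi₀
  have : Nonempty ι := ⟨i₀⟩
  choose! f hf using hmem
  classical
  refine ⟨insert i₀ ((Finset.range x).image f), ?_⟩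
  rintro z ⟨m, hm, hz⟩
  rcases lt_or_ge m x with h | h
  · refine mem_iUnion₂.2 ⟨f m, ?_, (hU (f m)).1 hz (hf m hm)⟩
    rw [Finset.mem_insert]
    exact Or.inr (Finset.mem_image_of_mem f (Finset.mem_range.2 h))
  · exact mem_iUnion₂.2 ⟨i₀, Finset.mem_insert_self _ _, (hU i₀).1 hz (hx m h)⟩

/-- There is a well-filtered dcpo `P` (some compatible topology on `P` is even sober) such that
for every nonempty poset `Q`, in particular for every well-filtered dcpo `Q`, the Scott topology
of the product order on `P × Q` is not well-filtered. -/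
theorem result :
    ∃ (P : Type) (_ : PartialOrder P),
      IsWellFilteredDcpo P ∧
      (∃ t : TopologicalSpace P, IsCompatible t ∧ @T0Space P t ∧ @QuasiSober P t) ∧
      ∀ (Q : Type) (_ : PartialOrder Q), Nonempty Q →
        ¬ IsWellFiltered (scottTopology (P × Q)) := by
  refine ⟨JT, inferInstance, ⟨dcpo_JT, coarse, compat, wf_coarse⟩,
    ⟨coarse, compat, t0_of_compat _ compat, sober⟩, ?_⟩
  rintro Q _ ⟨q⟩ ⟨_, hwf⟩
  have hdir : DirectedOn (· ⊇ ·) (range (KK q)) := by
    rintro _ ⟨m, rfl⟩ _ ⟨n, rfl⟩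
    refine ⟨KK q (max m n), ⟨_, rfl⟩, ?_, ?_⟩
    · rintro z ⟨k, hk, hz⟩
      exact ⟨k, (le_max_left _ _).trans hk, hz⟩
    · rintro z ⟨k, hk, hz⟩
      exact ⟨k, (le_max_right _ _).trans hk, hz⟩
  have hcs : ∀ K ∈ range (KK q), @IsCompact (JT × Q) (scottTopology (JT × Q)) K ∧
      IsSaturated (scottTopology (JT × Q)) K := by
    rintro _ ⟨n, rfl⟩
    refine ⟨compact_KK q n, {V | ∃ w, w ∉ KK q n ∧ V = (Iic w)ᶜ}, ?_, ?_⟩
    · rintro _ ⟨w, _, rfl⟩
      exact compl_Iic_open w
    · ext z
      constructor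
      · rintro ⟨m, hm, hz⟩ _ ⟨w, hw, rfl⟩ hzw
        exact hw ⟨m, hm, hz.trans hzw⟩
      · intro hz
        by_contra hcon
        exact hz _ ⟨z, hcon, rfl⟩ (show z ≤ z from le_rfl)
  have hint : ⋂₀ range (KK q) ⊆ {z : JT × Q | z.1 = ⊤} := by
    intro z hz
    by_contra hne
    obtain ⟨c, hc⟩ := WithTop.ne_top_iff_exists.1 hne
    have key : ∀ n, ∃ m ≥ n, c = mx m := by
      intro n
      obtain ⟨m, hm, hmz⟩ := hz _ ⟨n, rfl⟩
      refine ⟨m, hm, mx_le_iff.1 ?_⟩
      have := hmz.1
      rw [← hc] at this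
      exact WithTop.coe_le_coe.1 this
    obtain ⟨m, _, h1⟩ := key 0
    obtain ⟨k, hk, h2⟩ := key (m + 1)
    rw [h1] at h2
    cases h2
    omega
  obtain ⟨_, ⟨n, rfl⟩, hK⟩ := hwf (range (KK q)) (range_nonempty _) hdir hcs
    {z : JT × Q | z.1 = ⊤} (top_open Q) hint
  have : (((mx n : JP ℕ) : JT), q) ∈ {z : JT × Q | z.1 = ⊤} := hK ⟨n, le_rfl, le_rfl⟩
  exact WithTop.coe_ne_top this

end Pool.Agent.Results.MP_70096d_gt.ProductNotWellFiltered
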