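import Mathlib

set_option autoImplicit false

open Set Topology

universe u v

namespace Pool.Agent.Results.MP_70096d_gt.ScottWellFilteredProduct

/-- Scott open sets: upper sets which meet every directed set whose supremum they contain. -/
def IsScottOpen {P : Type u} [PartialOrder P] (U : Set P) : Prop :=
  IsUpperSet U ∧ ∀ D : Set P, D.Nonempty → DirectedOn (· ≤ ·) D → ∀ x : P, IsLUB D x → x ∈ U →
    (D ∩ U).Nonempty

/-- The Scott topology of a poset. -/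
def scottTopology (P : Type u) [PartialOrder P] : TopologicalSpace P where
  IsOpen := IsScottOpen
  isOpen_univ := ⟨isUpperSet_univ, fun D hD _ x _ _ => by rwa [inter_univ]⟩
  isOpen_inter := by
    rintro U V ⟨hU, hU'⟩ ⟨hV, hV'⟩
    refine ⟨hU.inter hV, fun D hD hdir x hx hxUV => ?_⟩
    obtain ⟨u, huD, huU⟩ := hU' D hD hdir x hx hxUV.1
    obtain ⟨v, hvD, hvV⟩ := hV' D hD hdir x hx hxUV.2
    obtain ⟨w, hwD, huw, hvw⟩ := hdir u huD v hvD
    exact ⟨w, hwD, hU huw huU, hV hvw hvV⟩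
  isOpen_sUnion := by
    intro S hS
    refine ⟨isUpperSet_sUnion fun U hU => (hS U hU).1, fun D hD hdir x hx hxS => ?_⟩
    obtain ⟨U, hU, hxU⟩ := hxS
    obtain ⟨u, huD, huU⟩ := (hS U hU).2 D hD hdir x hx hxU
    exact ⟨u, huD, U, hU, huU⟩

/-- A set is saturated for the topology `t` if it is an intersection of `t`-open sets. -/
def IsSaturated {X : Type u} (t : TopologicalSpace X) (K : Set X) : Prop :=
  ∃ 𝒰 : Set (Set X), (∀ U ∈ 𝒰, @IsOpen X t U) ∧ K = ⋂₀ 𝒰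

/-- The topology `t` is `T₀` and whenever a filtered (nonempty) family of compact saturated sets
has its intersection inside an open set, some member is inside that open set. -/
def IsWellFiltered {X : Type u} (t : TopologicalSpace X) : Prop :=
  @T0Space X t ∧
    ∀ 𝒦 : Set (Set X), 𝒦.Nonempty → DirectedOn (· ⊇ ·) 𝒦 →
      (∀ K ∈ 𝒦, @IsCompact X t K ∧ IsSaturated t K) →
      ∀ U : Set X, @IsOpen X t U → ⋂₀ 𝒦 ⊆ U → ∃ K ∈ 𝒦, K ⊆ U

/-- A minimal closed set among those meeting all members of a filtered family of compact sets. -/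
lemma exists_minimal {X : Type u} [TopologicalSpace X]
    (𝒦 : Set (Set X)) (hcomp : ∀ K ∈ 𝒦, IsCompact K)
    (C₀ : Set X) (hC₀ : IsClosed C₀) (hmeet : ∀ K ∈ 𝒦, (K ∩ C₀).Nonempty) :
    ∃ C : Set X, IsClosed C ∧ C ⊆ C₀ ∧ (∀ K ∈ 𝒦, (K ∩ C).Nonempty) ∧
      ∀ F : Set X, IsClosed F → (∀ K ∈ 𝒦, (K ∩ (C ∩ F)).Nonempty) → C ⊆ F := by
  let S : Set (Set X) := {C | IsClosed C ∧ C ⊆ C₀ ∧ ∀ K ∈ 𝒦, (K ∩ C).Nonempty}
  have hS : C₀ ∈ S := ⟨hC₀, Subset.rfl, hmeet⟩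
  obtain ⟨C, hC⟩ : ∃ C, Minimal (· ∈ S) C := by
    refine zorn_superset S ?_
    intro c hc hchain
    rcases c.eq_empty_or_nonempty with rfl | hcne
    · exact ⟨C₀, hS, fun s hs => hs.elim⟩
    · refine ⟨⋂₀ c, ⟨isClosed_sInter fun s hs => (hc hs).1, ?_, ?_⟩,
        fun s hs => sInter_subset_of_mem hs⟩
      · obtain ⟨s, hs⟩ := hcne
        exact (sInter_subset_of_mem hs).trans (hc hs).2.1
      · intro K hK
        by_contra hemp
        rw [not_nonempty_iff_eq_empty] at hemp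
        have : Nonempty c := hcne.to_subtype
        have hdirc : Directed (· ⊇ ·) (fun s : c => (s : Set X)) := by
          intro s t
          rcases hchain.total s.2 t.2 with h | h
          · exact ⟨s, Subset.rfl, h⟩
          · exact ⟨t, h, Subset.rfl⟩
        obtain ⟨s, hs⟩ := IsCompact.elim_directed_family_closed (hcomp K hK)
          (fun s : c => (s : Set X)) (fun s => (hc s.2).1) (by rw [← sInter_eq_iInter]; exact hemp)
          hdirc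
        have := (hc s.2).2.2 K hK
        rw [hs] at this
        exact not_nonempty_empty this
  refine ⟨C, hC.prop.1, hC.prop.2.1, hC.prop.2.2, fun F hF hmeetF => ?_⟩
  have hmem : C ∩ F ∈ S := ⟨hC.prop.1.inter hF, inter_subset_left.trans hC.prop.2.1, hmeetF⟩
  exact fun x hx => (hC.le_of_le hmem inter_subset_left hx).2

lemma compl_Iic_open {P : Type u} [PartialOrder P] (w : P) : IsScottOpen (Iic w)ᶜ := by
  constructor
  · intro a b hab ha hb
    exact ha (hab.trans hb)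
  · intro D _ _ x hx hxw
    by_contra hcon
    refine hxw (hx.2 fun z hz => ?_)
    by_contra hzw
    exact hcon ⟨z, hz, hzw⟩

lemma closed_Iic {P : Type u} [PartialOrder P] (w : P) :
    @IsClosed P (scottTopology P) (Iic w) := by
  rw [← @isOpen_compl_iff P (Iic w) (scottTopology P)]
  exact compl_Iic_open w

lemma saturated_of_upper {P : Type u} [PartialOrder P] {K : Set P} (hK : IsUpperSet K) :
    IsSaturated (scottTopology P) K := by
  refine ⟨{V | ∃ w, w ∉ K ∧ V = (Iic w)ᶜ}, ?_, ?_⟩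
  · rintro _ ⟨w, _, rfl⟩
    exact compl_Iic_open w
  · ext z
    constructor
    · rintro hz _ ⟨w, hw, rfl⟩ hzw
      exact hw (hK hzw hz)
    · intro hz
      by_contra hcon
      exact hz _ ⟨z, hcon, rfl⟩ (show z ≤ z from le_rfl)

lemma upper_of_saturated {P : Type u} [PartialOrder P] {K : Set P}
    (hK : IsSaturated (scottTopology P) K) : IsUpperSet K := by
  obtain ⟨𝒰, h𝒰, rfl⟩ := hK
  intro a b hab ha U hU
  exact (h𝒰 U hU).1 hab (ha U hU)

lemma compact_upper {P : Type u} [PartialOrder P] {S : Set P}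
    (hS : @IsCompact P (scottTopology P) S) :
    @IsCompact P (scottTopology P) {p | ∃ s ∈ S, s ≤ p} := by
  refine @isCompact_of_finite_subcover P (scottTopology P) _ ?_
  intro ι U hU hcov
  obtain ⟨t, ht⟩ := (@isCompact_iff_finite_subcover P (scottTopology P) S).1 hS U hU
    (fun s hs => hcov ⟨s, hs, le_rfl⟩)
  refine ⟨t, ?_⟩
  rintro p ⟨s, hs, hsp⟩
  obtain ⟨i, hi, hsi⟩ := mem_iUnion₂.1 (ht hs)
  exact mem_iUnion₂.2 ⟨i, hi, (hU i).1 hsp hsi⟩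

/-- The projection lemma. -/
lemma proj {X : Type u} [tX : TopologicalSpace X] {P : Type v} [PartialOrder P]
    (hP : IsWellFiltered (scottTopology P)) (π : X → P)
    (hπ : @Continuous X P tX (scottTopology P) π)
    (𝒦 : Set (Set X)) (hne : 𝒦.Nonempty) (hdir : DirectedOn (· ⊇ ·) 𝒦)
    (hcomp : ∀ K ∈ 𝒦, IsCompact K) (C : Set X) (hC : IsClosed C)
    (hmeet : ∀ K ∈ 𝒦, (K ∩ C).Nonempty)
    (hmin : ∀ F : Set X, IsClosed F → (∀ K ∈ 𝒦, (K ∩ (C ∩ F)).Nonempty) → C ⊆ F) :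
    ∃ a : P, (∀ x ∈ C, π x ≤ a) ∧
      ∀ O : Set P, IsScottOpen O → a ∈ O → ∃ K ∈ 𝒦, ∀ x ∈ K ∩ C, π x ∈ O := by
  let A : Set X → Set P := fun K => {p | ∃ s ∈ π '' (K ∩ C), s ≤ p}
  let E : Set P := @closure P (scottTopology P) (π '' C)
  have hE : @IsClosed P (scottTopology P) E := @isClosed_closure P (scottTopology P) _
  have hCE : π '' C ⊆ E := @subset_closure P (scottTopology P) _
  have hAne : (A '' 𝒦).Nonempty := hne.image A
  have hAdir : DirectedOn (· ⊇ ·) (A '' 𝒦) := by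
    rintro _ ⟨K, hK, rfl⟩ _ ⟨L, hL, rfl⟩
    obtain ⟨M, hM, h1, h2⟩ := hdir K hK L hL
    refine ⟨A M, ⟨M, hM, rfl⟩, ?_, ?_⟩
    · rintro p ⟨_, ⟨x, hx, rfl⟩, hs⟩
      exact ⟨π x, ⟨x, ⟨h1 hx.1, hx.2⟩, rfl⟩, hs⟩
    · rintro p ⟨_, ⟨x, hx, rfl⟩, hs⟩
      exact ⟨π x, ⟨x, ⟨h2 hx.1, hx.2⟩, rfl⟩, hs⟩
  have hAcs : ∀ L ∈ A '' 𝒦, @IsCompact P (scottTopology P) L ∧
      IsSaturated (scottTopology P) L := by
    rintro _ ⟨K, hK, rfl⟩
    refine ⟨compact_upper ?_, saturated_of_upper ?_⟩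
    · exact @IsCompact.image X P tX (scottTopology P) _ _ ((hcomp K hK).inter_right hC) hπ
    · rintro p q hpq ⟨s, hs, hsp⟩
      exact ⟨s, hs, hsp.trans hpq⟩
  -- every point of all the sets `A K` is above the projection of `C`
  have hup : ∀ p ∈ ⋂₀ (A '' 𝒦), ∀ x ∈ C, π x ≤ p := by
    intro p hp
    have hF : IsClosed (π ⁻¹' Iic p) :=
      @IsClosed.preimage X P tX (scottTopology P) π hπ _ (closed_Iic p)
    refine hmin _ hF fun K hK => ?_
    obtain ⟨_, ⟨x, hx, rfl⟩, hxp⟩ := hp (A K) ⟨K, hK, rfl⟩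
    exact ⟨x, hx.1, hx.2, hxp⟩
  obtain ⟨a, haE, haA⟩ : ∃ a ∈ E, a ∈ ⋂₀ (A '' 𝒦) := by
    by_contra hcon
    push Not at hcon
    obtain ⟨_, ⟨K, hK, rfl⟩, hKE⟩ := hP.2 (A '' 𝒦) hAne hAdir hAcs Eᶜ
      (@IsClosed.isOpen_compl P (scottTopology P) E hE) (fun p hp hpE => hcon p hpE hp)
    obtain ⟨x, hxK, hxC⟩ := hmeet K hK
    exact hKE ⟨π x, ⟨x, ⟨hxK, hxC⟩, rfl⟩, le_rfl⟩ (hCE ⟨x, hxC, rfl⟩)
  refine ⟨a, hup a haA, fun O hO haO => ?_⟩
  obtain ⟨_, ⟨K, hK, rfl⟩, hKO⟩ := hP.2 (A '' 𝒦) hAne hAdir hAcs O hO (fun p hp => by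
    have hEp : E ⊆ Iic p := by
      refine @closure_minimal P (scottTopology P) _ _ ?_ (closed_Iic p)
      rintro _ ⟨x, hx, rfl⟩
      exact hup p hp x hx
    exact hO.1 (hEp haE) haO)
  exact ⟨K, hK, fun x hx => hKO ⟨π x, ⟨x, hx, rfl⟩, le_rfl⟩⟩

lemma cont_fst (P : Type u) (Q : Type v) [PartialOrder P] [PartialOrder Q] :
    @Continuous (P × Q) P (scottTopology (P × Q)) (scottTopology P) Prod.fst := by
  refine @Continuous.mk (P × Q) P (scottTopology (P × Q)) (scottTopology P) _ fun O hO => ?_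
  refine ⟨fun a b hab ha => hO.1 hab.1 ha, fun D hne hdir x hx hxO => ?_⟩
  obtain ⟨_, ⟨d, hd, rfl⟩, hdO⟩ := hO.2 (Prod.fst '' D) (hne.image _) (by
    rintro _ ⟨p, hp, rfl⟩ _ ⟨q, hq, rfl⟩
    obtain ⟨r, hr, h1, h2⟩ := hdir p hp q hq
    exact ⟨r.1, ⟨r, hr, rfl⟩, h1.1, h2.1⟩) x.1 (isLUB_prod.1 hx).1 hxO
  exact ⟨d, hd, hdO⟩

lemma cont_snd (P : Type u) (Q : Type v) [PartialOrder P] [PartialOrder Q] :
    @Continuous (P × Q) Q (scottTopology (P × Q)) (scottTopology Q) Prod.snd := by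
  refine @Continuous.mk (P × Q) Q (scottTopology (P × Q)) (scottTopology Q) _ fun O hO => ?_
  refine ⟨fun a b hab ha => hO.1 hab.2 ha, fun D hne hdir x hx hxO => ?_⟩
  obtain ⟨_, ⟨d, hd, rfl⟩, hdO⟩ := hO.2 (Prod.snd '' D) (hne.image _) (by
    rintro _ ⟨p, hp, rfl⟩ _ ⟨q, hq, rfl⟩
    obtain ⟨r, hr, h1, h2⟩ := hdir p hp q hq
    exact ⟨r.2, ⟨r, hr, rfl⟩, h1.2, h2.2⟩) x.2 (isLUB_prod.1 hx).2 hxO
  exact ⟨d, hd, hdO⟩

/-- If the Scott topologies of `P` and `Q` are well-filtered, so is that of `P × Q`. -/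
theorem result (P : Type u) (Q : Type v) [PartialOrder P] [PartialOrder Q]
    (hP : IsWellFiltered (scottTopology P)) (hQ : IsWellFiltered (scottTopology Q)) :
    IsWellFiltered (scottTopology (P × Q)) := by
  refine ⟨?_, ?_⟩
  · refine @T0Space.mk (P × Q) (scottTopology (P × Q)) fun x y hxy => ?_
    have key : ∀ x y : P × Q, @Inseparable (P × Q) (scottTopology (P × Q)) x y → x ≤ y := by
      intro x y hxy
      by_contra hcon
      have := (@Inseparable.mem_open_iff (P × Q) (scottTopology (P × Q)) x y _ hxy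
        (compl_Iic_open y)).1 hcon
      exact this (show y ≤ y from le_rfl)
    exact le_antisymm (key x y hxy)
      (key y x (@Inseparable.symm (P × Q) (scottTopology (P × Q)) x y hxy))
  intro 𝒦 hne hdir hcs U hU hsub
  by_contra hcon
  push Not at hcon
  have hcomp : ∀ K ∈ 𝒦, @IsCompact (P × Q) (scottTopology (P × Q)) K := fun K hK => (hcs K hK).1
  obtain ⟨C, hC, hCU, hmeet, hmin⟩ := @exists_minimal (P × Q) (scottTopology (P × Q)) 𝒦 hcomp Uᶜ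
    (@IsOpen.isClosed_compl (P × Q) (scottTopology (P × Q)) U hU) (fun K hK => by
      obtain ⟨x, hx, hxU⟩ := not_subset.1 (hcon K hK)
      exact ⟨x, hx, hxU⟩)
  obtain ⟨a, ha1, ha2⟩ := @proj (P × Q) (scottTopology (P × Q)) P _ hP Prod.fst (cont_fst P Q)
    𝒦 hne hdir hcomp C hC hmeet hmin
  obtain ⟨b, hb1, hb2⟩ := @proj (P × Q) (scottTopology (P × Q)) Q _ hQ Prod.snd (cont_snd P Q)
    𝒦 hne hdir hcomp C hC hmeet hmin
  let O : Set (P × Q) := Cᶜ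
  have hO : IsScottOpen O := @IsClosed.isOpen_compl (P × Q) (scottTopology (P × Q)) C hC
  have habO : (a, b) ∈ O := by
    intro habC
    refine hCU habC (hsub ?_)
    intro K hK
    obtain ⟨x, hxK, hxC⟩ := hmeet K hK
    exact upper_of_saturated (hcs K hK).2 (show x ≤ (a, b) from ⟨ha1 x hxC, hb1 x hxC⟩) hxK
  -- horizontal and vertical slices of `O`
  have hslP : ∀ q : Q, IsScottOpen {p : P | (p, q) ∈ O} := by
    intro q
    refine ⟨fun p p' hpp hp => hO.1 (show (p, q) ≤ (p', q) from ⟨hpp, le_rfl⟩) hp, ?_⟩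
    intro D hDne hDdir p hp hpO
    obtain ⟨_, ⟨d, hd, rfl⟩, hdO⟩ := hO.2 ((fun d => (d, q)) '' D) (hDne.image _) (by
      rintro _ ⟨d, hd, rfl⟩ _ ⟨e, he, rfl⟩
      obtain ⟨f, hf, h1, h2⟩ := hDdir d hd e he
      exact ⟨(f, q), ⟨f, hf, rfl⟩, ⟨h1, le_rfl⟩, ⟨h2, le_rfl⟩⟩) (p, q) (by
      constructor
      · rintro _ ⟨d, hd, rfl⟩
        exact ⟨hp.1 hd, le_rfl⟩
      · intro w hw
        refine ⟨hp.2 fun d hd => (hw ⟨d, hd, rfl⟩).1, ?_⟩
        obtain ⟨d, hd⟩ := hDne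
        exact (hw ⟨d, hd, rfl⟩).2) hpO
    exact ⟨d, hd, hdO⟩
  have hslQ : ∀ p : P, IsScottOpen {q : Q | (p, q) ∈ O} := by
    intro p
    refine ⟨fun q q' hqq hq => hO.1 (show (p, q) ≤ (p, q') from ⟨le_rfl, hqq⟩) hq, ?_⟩
    intro D hDne hDdir q hq hqO
    obtain ⟨_, ⟨d, hd, rfl⟩, hdO⟩ := hO.2 ((fun d => (p, d)) '' D) (hDne.image _) (by
      rintro _ ⟨d, hd, rfl⟩ _ ⟨e, he, rfl⟩
      obtain ⟨f, hf, h1, h2⟩ := hDdir d hd e he
      exact ⟨(p, f), ⟨f, hf, rfl⟩, ⟨le_rfl, h1⟩, ⟨le_rfl, h2⟩⟩) (p, q) (by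
      constructor
      · rintro _ ⟨d, hd, rfl⟩
        exact ⟨le_rfl, hq.1 hd⟩
      · intro w hw
        refine ⟨?_, hq.2 fun d hd => (hw ⟨d, hd, rfl⟩).2⟩
        obtain ⟨d, hd⟩ := hDne
        exact (hw ⟨d, hd, rfl⟩).1) hqO
    exact ⟨d, hd, hdO⟩
  -- the sets of `p` whose slice contains the projection of `K ∩ C`
  let G : Set (P × Q) → Set P := fun K => {p | ∀ z ∈ K ∩ C, (p, z.2) ∈ O}
  have hG : ∀ K ∈ 𝒦, IsScottOpen (G K) := by
    intro K hK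
    refine ⟨fun p p' hpp hp z hz => (hslP z.2).1 hpp (hp z hz), ?_⟩
    intro D hDne hDdir p hp hpG
    have hcB : @IsCompact Q (scottTopology Q) (Prod.snd '' (K ∩ C)) :=
      @IsCompact.image (P × Q) Q (scottTopology (P × Q)) (scottTopology Q) _ _
        (@IsCompact.inter_right (P × Q) (scottTopology (P × Q)) _ _ (hcomp K hK) hC)
        (cont_snd P Q)
    have : Nonempty D := hDne.to_subtype
    obtain ⟨d, hd⟩ := @IsCompact.elim_directed_cover Q (scottTopology Q) _ D _ hcB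
      (fun d : D => {q : Q | (d.1, q) ∈ O}) (fun d => hslQ d.1) (by
        rintro _ ⟨z, hz, rfl⟩
        obtain ⟨d, hdD, hd⟩ := (hslP z.2).2 D hDne hDdir p hp (hpG z hz)
        exact mem_iUnion.2 ⟨⟨d, hdD⟩, hd⟩) (by
        intro d e
        obtain ⟨f, hf, h1, h2⟩ := hDdir d.1 d.2 e.1 e.2
        exact ⟨⟨f, hf⟩, fun q hq => (hslP q).1 h1 hq, fun q hq => (hslP q).1 h2 hq⟩)
    exact ⟨d.1, d.2, fun z hz => hd ⟨z, hz, rfl⟩⟩
  obtain ⟨K₁, hK₁, h1⟩ := ha2 {p | (p, b) ∈ O} (hslP b) habO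
  have hcA : @IsCompact P (scottTopology P) (Prod.fst '' (K₁ ∩ C)) :=
    @IsCompact.image (P × Q) P (scottTopology (P × Q)) (scottTopology P) _ _
      (@IsCompact.inter_right (P × Q) (scottTopology (P × Q)) _ _ (hcomp K₁ hK₁) hC)
      (cont_fst P Q)
  have : Nonempty 𝒦 := hne.to_subtype
  obtain ⟨K₂, hK₂⟩ := @IsCompact.elim_directed_cover P (scottTopology P) _ 𝒦 _ hcA
    (fun K : 𝒦 => G K.1) (fun K => hG K.1 K.2) (by
      rintro _ ⟨z, hz, rfl⟩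
      obtain ⟨K, hK, hKz⟩ := hb2 {q | (z.1, q) ∈ O} (hslQ z.1) (h1 z hz)
      exact mem_iUnion.2 ⟨⟨K, hK⟩, hKz⟩) (by
      intro K L
      obtain ⟨M, hM, hKM, hLM⟩ := hdir K.1 K.2 L.1 L.2
      exact ⟨⟨M, hM⟩, fun p hp z hz => hp z ⟨hKM hz.1, hz.2⟩,
        fun p hp z hz => hp z ⟨hLM hz.1, hz.2⟩⟩)
  obtain ⟨K₃, hK₃, h31, h32⟩ := hdir K₁ hK₁ K₂.1 K₂.2
  obtain ⟨z, hzK, hzC⟩ := hmeet K₃ hK₃
  exact hK₂ ⟨z, ⟨h31 hzK, hzC⟩, rfl⟩ z ⟨h32 hzK, hzC⟩ hzC

end Pool.Agent.Results.MP_70096d_gt.ScottWellFilteredProduct
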